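import Pool.Agent.H801R2.CX.Final

/-!
# MP_86e332_an, Q1: all closed Lempert balls of a bounded `ℂ`-convex domain are `ℂ`-convex

Stronger form of the starting result `Exhaustion` (existence of some exhaustion by `ℂ`-convex compact
sets): the closed balls of the Lempert function about any point are such sets, for all radii.
-/

set_option autoImplicit false

open Set Metric Topology

namespace Pool.Agent.Results.MP_86e332_an.LempertBalls

/-- A complex line in `ℂⁿ`: a set `{a + t b : t ∈ ℂ}` with `b ≠ 0`. -/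
def IsComplexLine {n : ℕ} (L : Set (EuclideanSpace ℂ (Fin n))) : Prop :=
  ∃ a b : EuclideanSpace ℂ (Fin n), b ≠ 0 ∧ L = {y | ∃ t : ℂ, y = a + t • b}

/-- A `ℂ`-convex domain: an open connected set whose intersection with every complex line is
empty or simply connected (path connected with trivial fundamental group). -/
structure CConvexDomain {n : ℕ} (D : Set (EuclideanSpace ℂ (Fin n))) : Prop where
  isOpen : IsOpen D
  isPreconnected : IsPreconnected D
  slice : ∀ L, IsComplexLine L → D ∩ L = ∅ ∨ IsSimplyConnected (D ∩ L)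

/-- A `ℂ`-convex compact set: a compact set `K` such that for every complex line `L` the
intersection `K ∩ L` is empty, or it is connected and `L \ K` is connected. -/
structure CConvexCompact {n : ℕ} (K : Set (EuclideanSpace ℂ (Fin n))) : Prop where
  isCompact : IsCompact K
  slice : ∀ L, IsComplexLine L → K ∩ L = ∅ ∨ (IsConnected (K ∩ L) ∧ IsConnected (L \ K))

/-- The Lempert function of `D`: the infimum of the numbers `0 ≤ r < 1` for which there is a holomorphic
map `φ` of the open unit disc into `D` with `φ 0 = o` and `φ r = y`. -/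
noncomputable def lempert {n : ℕ} (D : Set (EuclideanSpace ℂ (Fin n)))
    (o y : EuclideanSpace ℂ (Fin n)) : ℝ :=
  sInf {r : ℝ | 0 ≤ r ∧ r < 1 ∧ ∃ φ : ℂ → EuclideanSpace ℂ (Fin n),
    DifferentiableOn ℂ φ (ball 0 1) ∧ MapsTo φ (ball 0 1) D ∧ φ 0 = o ∧ φ (r : ℂ) = y}

/-- The closed ball of the Lempert function with centre `o` and radius `c`. -/
def lempertBall {n : ℕ} (D : Set (EuclideanSpace ℂ (Fin n)))
    (o : EuclideanSpace ℂ (Fin n)) (c : ℝ) : Set (EuclideanSpace ℂ (Fin n)) :=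
  {y | y ∈ D ∧ lempert D o y ≤ c}

theorem dom_of_cconvex {n : ℕ} {D : Set (EuclideanSpace ℂ (Fin n))} (hD : CConvexDomain D)
    (hb : Bornology.IsBounded D) : Pool.Agent.H801R2.CX.Dom D := by
  refine ⟨hD.isOpen, hb, ?_⟩
  intro x hx v
  by_cases hv : v = 0
  · subst hv
    have : {t : ℂ | x + t • (0 : EuclideanSpace ℂ (Fin n)) ∈ D} = univ := by
      ext t
      simp [hx]
    rw [this]
    exact Pool.Agent.H801R2.CX.simplyConnected_univ
  · obtain ⟨f, hf⟩ : ∃ f : EuclideanSpace ℂ (Fin n) →L[ℂ] ℂ, f v = 1 :=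
      SeparatingDual.exists_eq_one hv
    set L : Set (EuclideanSpace ℂ (Fin n)) := {y | ∃ t : ℂ, y = x + t • v} with hL
    rcases hD.slice L ⟨x, v, hv, rfl⟩ with h | h
    · exfalso
      have h1 : x ∈ D ∩ L := ⟨hx, 0, by simp⟩
      rw [h] at h1
      exact h1
    · let e : {t : ℂ | x + t • v ∈ D} ≃ₜ (D ∩ L : Set (EuclideanSpace ℂ (Fin n))) :=
        { toFun := fun t => ⟨x + (t : ℂ) • v, t.2, (t : ℂ), rfl⟩
          invFun := fun y => ⟨f (y.1 - x), by
            obtain ⟨t, ht⟩ := y.2.2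
            change x + f (y.1 - x) • v ∈ D
            rw [ht, add_sub_cancel_left, map_smul, hf, smul_eq_mul, mul_one, ← ht]
            exact y.2.1⟩
          left_inv := by
            intro t
            apply Subtype.ext
            simp [hf]
          right_inv := by
            intro y
            apply Subtype.ext
            obtain ⟨t, ht⟩ := y.2.2
            change x + f (y.1 - x) • v = y.1
            rw [ht, add_sub_cancel_left, map_smul, hf, smul_eq_mul, mul_one]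
          continuous_toFun := by fun_prop
          continuous_invFun := by fun_prop }
      have h2 : SimplyConnectedSpace (D ∩ L : Set (EuclideanSpace ℂ (Fin n))) := h
      have h3 : SimplyConnectedSpace {t : ℂ | x + t • v ∈ D} :=
        e.toHomotopyEquiv.simplyConnectedSpace
      exact h3

theorem slices {n : ℕ} {K : Set (EuclideanSpace ℂ (Fin n))} (hK : IsCompact K)
    (h : ∀ a b : EuclideanSpace ℂ (Fin n), b ≠ 0 →
      IsPreconnected {t : ℂ | a + t • b ∈ K} ∧ IsConnected {t : ℂ | a + t • b ∈ K}ᶜ) :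
    CConvexCompact K := by
  refine ⟨hK, ?_⟩
  rintro L ⟨a, b, hb0, rfl⟩
  obtain ⟨h5, h6⟩ := h a b hb0
  have hι : Continuous (fun t : ℂ => a + t • b) := by fun_prop
  have e1 : K ∩ {y | ∃ t : ℂ, y = a + t • b} =
      (fun t : ℂ => a + t • b) '' {t : ℂ | a + t • b ∈ K} := by
    ext y
    constructor
    · rintro ⟨hy, t, rfl⟩
      exact ⟨t, hy, rfl⟩
    · rintro ⟨t, ht, rfl⟩
      exact ⟨ht, t, rfl⟩
  have e2 : {y | ∃ t : ℂ, y = a + t • b} \ K =
      (fun t : ℂ => a + t • b) '' {t : ℂ | a + t • b ∈ K}ᶜ := by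
    ext y
    constructor
    · rintro ⟨⟨t, rfl⟩, hy⟩
      exact ⟨t, hy, rfl⟩
    · rintro ⟨t, ht, rfl⟩
      exact ⟨⟨t, rfl⟩, ht⟩
  rcases {t : ℂ | a + t • b ∈ K}.eq_empty_or_nonempty with h7 | h7
  · left
    rw [e1, h7, image_empty]
  · right
    rw [e1, e2]
    exact ⟨IsConnected.image ⟨h7, h5⟩ _ hι.continuousOn, h6.image _ hι.continuousOn⟩

open Pool.Agent.H801R2.CX in
theorem ball_eq {n : ℕ} {D : Set (EuclideanSpace ℂ (Fin n))} (hD : Dom D)
    {o : EuclideanSpace ℂ (Fin n)} (ho : o ∈ D) {c : ℝ} (hc0 : 0 ≤ c) (hc1 : c < 1) :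
    lempertBall D o c = KK D o c := by
  have hlc : LinC D := linC_of_dom hD ⟨o, ho⟩
  obtain ⟨W, E, K⟩ := exists_kit hD hlc
  ext y
  constructor
  · rintro ⟨hy, hle⟩
    by_contra hn
    obtain ⟨c', h1, h2, h3⟩ := KK_right hD.bd hlc ho hc0 hc1 hn
    obtain ⟨r0, hr0, hr1, hyr⟩ := KK_exhaust K ho hy
    have hne : {r : ℝ | 0 ≤ r ∧ r < 1 ∧ ∃ φ : ℂ → EuclideanSpace ℂ (Fin n),
        DifferentiableOn ℂ φ (ball 0 1) ∧ MapsTo φ (ball 0 1) D ∧ φ 0 = o ∧
          φ (r : ℂ) = y}.Nonempty := by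
      obtain ⟨φ, hφ, hφy⟩ := hyr
      exact ⟨r0, hr0.le, hr1, φ, hφ.1, hφ.2.1, hφ.2.2, hφy⟩
    obtain ⟨r, ⟨hr0', hr1', φ, p1, p2, p3, p4⟩, hrc⟩ := exists_lt_of_csInf_lt hne
      (lt_of_le_of_lt hle h1)
    apply h3
    exact KK_mono hr0' hrc.le (by linarith) ⟨φ, ⟨p1, p2, p3⟩, p4⟩
  · rintro ⟨φ, ⟨p1, p2, p3⟩, p4⟩
    refine ⟨KK_sub hc0 hc1 ⟨φ, ⟨p1, p2, p3⟩, p4⟩, ?_⟩
    exact csInf_le ⟨0, fun r hr => hr.1⟩ ⟨hc0, hc1, φ, p1, p2, p3, p4⟩

/-- **All closed Lempert balls of a bounded `ℂ`-convex domain are `ℂ`-convex.** Let `D ⊂ ℂⁿ` be a bounded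
`ℂ`-convex domain. (1) For every point `o ∈ D` and every radius `0 < c < 1` the closed ball
`{y ∈ D | ℓ_D(o, y) ≤ c}` of the Lempert function is a `ℂ`-convex compact set; it is the set of the values
`φ c` of the holomorphic maps `φ` of the unit disc into `D` with `φ 0 = o`; it is contained in the
interior of the ball of any larger radius; and the union of the balls is `D`. (2) In particular `D` is the
union of an increasing sequence of `ℂ`-convex compact sets. -/
theorem result (n : ℕ) (D : Set (EuclideanSpace ℂ (Fin n))) (hD : CConvexDomain D)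
    (hb : Bornology.IsBounded D) :
    (∀ o ∈ D,
      (∀ c : ℝ, 0 < c → c < 1 → CConvexCompact (lempertBall D o c) ∧
        lempertBall D o c = {y | ∃ φ : ℂ → EuclideanSpace ℂ (Fin n),
          DifferentiableOn ℂ φ (ball 0 1) ∧ MapsTo φ (ball 0 1) D ∧ φ 0 = o ∧ φ (c : ℂ) = y}) ∧
      (∀ c c' : ℝ, 0 < c → c < c' → c' < 1 → lempertBall D o c ⊆ interior (lempertBall D o c')) ∧
      (⋃ c ∈ Ioo (0 : ℝ) 1, lempertBall D o c) = D) ∧
    ∃ K : ℕ → Set (EuclideanSpace ℂ (Fin n)),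
      (∀ j, CConvexCompact (K j)) ∧ (∀ j, K j ⊆ interior (K (j + 1))) ∧ (⋃ j, K j) = D := by
  have hdom := dom_of_cconvex hD hb
  refine ⟨?_, ?_⟩
  · intro o ho
    have hlc : Pool.Agent.H801R2.CX.LinC D := Pool.Agent.H801R2.CX.linC_of_dom hdom ⟨o, ho⟩
    obtain ⟨W, E, K⟩ := Pool.Agent.H801R2.CX.exists_kit hdom hlc
    refine ⟨?_, ?_, ?_⟩
    · intro c hc0 hc1
      rw [ball_eq hdom ho hc0.le hc1]
      refine ⟨slices (Pool.Agent.H801R2.CX.KK_compact hdom.bd hlc ho hc0.le hc1) fun a b hb0 =>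
        ⟨Pool.Agent.H801R2.CX.SS_conn hdom hlc K ho hb0 hc0.le hc1,
          Pool.Agent.H801R2.CX.SS_compl hdom hlc K ho hb0 hc0 hc1⟩, ?_⟩
      ext y
      constructor
      · rintro ⟨φ, hφ, hy⟩
        exact ⟨φ, hφ.1, hφ.2.1, hφ.2.2, hy⟩
      · rintro ⟨φ, h1, h2, h3, hy⟩
        exact ⟨φ, ⟨h1, h2, h3⟩, hy⟩
    · intro c c' hc0 hcc' hc1
      rw [ball_eq hdom ho hc0.le (hcc'.trans hc1), ball_eq hdom ho (hc0.trans hcc').le hc1]
      exact Pool.Agent.H801R2.CX.KK_int hdom.op hc0.le hcc'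
    · apply Subset.antisymm
      · intro y hy
        simp only [mem_iUnion] at hy
        obtain ⟨c, -, hy⟩ := hy
        exact hy.1
      · intro y hy
        obtain ⟨r, hr0, hr1, hyr⟩ := Pool.Agent.H801R2.CX.KK_exhaust K ho hy
        simp only [mem_iUnion]
        refine ⟨r, ⟨hr0, hr1⟩, ?_⟩
        rw [ball_eq hdom ho hr0.le hr1]
        exact hyr
  · obtain ⟨K, h1, h2, h3, h4⟩ := Pool.Agent.H801R2.CX.exhaustion hdom
    exact ⟨K, fun j => slices (h1 j) (h4 j), h2, h3⟩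

end Pool.Agent.Results.MP_86e332_an.LempertBalls
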